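import Pool.Agent.Helper15.BP.Sec
import Pool.Agent.Helper26.BP.Iter
import Pool.Agent.Helper25.BP.Reg

/-!
# Calculus of families (phase 2)

* `Fine A B`: `B` is the same variable with finer side information (up to an equivalence of the
  sample spaces); `Sim A B`: the same family;
* `resV A V`: the family `(Y | J, Y mod V)` with values in `V`;
* `mixF p A B`: public mixture, `thin p A`: public mixture with the uniform family.
-/

set_option autoImplicit false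

namespace Pool.Agent.Helper15.BP

open Finset

namespace Fam

/-! ### Comparison of families -/

/-- `B` is the variable of `A` with finer side information -/
def Fine {G : Type} [AddCommGroup G] (A B : Fam G) : Prop :=
  ∃ e : A.Ω ≃ B.Ω, (∀ o, B.w (e o) = A.w o) ∧
    (∀ o o', B.J (e o) = B.J (e o') → A.J o = A.J o') ∧
    (∀ o o', B.J (e o) = B.J (e o') → A.Y o - A.Y o' = B.Y (e o) - B.Y (e o'))

/-- the same family -/
def Sim {G : Type} [AddCommGroup G] (A B : Fam G) : Prop :=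
  ∃ e : A.Ω ≃ B.Ω, (∀ o, B.w (e o) = A.w o) ∧
    (∀ o o', A.J o = A.J o' ↔ B.J (e o) = B.J (e o')) ∧
    (∀ o o', A.J o = A.J o' → A.Y o - A.Y o' = B.Y (e o) - B.Y (e o'))

variable {G : Type} [AddCommGroup G]

theorem Sim.fine {A B : Fam G} (h : Sim A B) : Fine A B := by
  obtain ⟨e, h1, h2, h3⟩ := h
  exact ⟨e, h1, fun o o' h => (h2 o o').2 h, fun o o' h => h3 o o' ((h2 o o').2 h)⟩

theorem Sim.refl (A : Fam G) : Sim A A :=
  ⟨Equiv.refl _, fun _ => rfl, fun _ _ => Iff.rfl, fun _ _ _ => rfl⟩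

theorem Sim.symm {A B : Fam G} (h : Sim A B) : Sim B A := by
  obtain ⟨e, h1, h2, h3⟩ := h
  refine ⟨e.symm, fun o => ?_, fun o o' => ?_, fun o o' h => ?_⟩
  · rw [← h1, e.apply_symm_apply]
  · rw [h2, e.apply_symm_apply, e.apply_symm_apply]
  · rw [h3 _ _ ((h2 _ _).2 (by rwa [e.apply_symm_apply, e.apply_symm_apply])),
      e.apply_symm_apply, e.apply_symm_apply]

theorem Sim.trans {A B C : Fam G} (h : Sim A B) (h' : Sim B C) : Sim A C := by
  obtain ⟨e, h1, h2, h3⟩ := h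
  obtain ⟨e', h1', h2', h3'⟩ := h'
  refine ⟨e.trans e', fun o => ?_, fun o o' => ?_, fun o o' h => ?_⟩
  · rw [Equiv.trans_apply, h1', h1]
  · rw [Equiv.trans_apply, Equiv.trans_apply, h2, h2']
  · rw [Equiv.trans_apply, Equiv.trans_apply, h3 _ _ h, h3' _ _ ((h2 _ _).1 h)]

theorem Fine.D_le {A B : Fam G} (h : Fine A B) (H : AddSubgroup G) : A.D H ≤ B.D H := by
  obtain ⟨e, h1, h2, h3⟩ := h
  unfold D c
  have e1 : Ent B.w (fun o => (B.J o, (QuotientAddGroup.mk (B.Y o) : G ⧸ H))) =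
      Ent A.w (fun o => (B.J (e o), (QuotientAddGroup.mk (A.Y o) : G ⧸ H))) := by
    rw [← Ent_equiv e h1]
    refine Ent_congr fun o o' => ?_
    simp only [Prod.mk.injEq, mk_eq_iff]
    constructor
    · rintro ⟨a, b⟩
      exact ⟨a, by rw [h3 o o' a]; exact b⟩
    · rintro ⟨a, b⟩
      exact ⟨a, by rw [← h3 o o' a]; exact b⟩
  have e2 : Ent B.w B.J = Ent A.w (fun o => B.J (e o)) := (Ent_equiv e h1 B.J).symm
  have h4 := Ent_submod A.hw (fun o => (QuotientAddGroup.mk (A.Y o) : G ⧸ H))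
    (fun o => B.J (e o)) A.J
  have e3 : Ent A.w (fun o => ((QuotientAddGroup.mk (A.Y o) : G ⧸ H), B.J (e o), A.J o)) =
      Ent A.w (fun o => (B.J (e o), (QuotientAddGroup.mk (A.Y o) : G ⧸ H))) := by
    refine Ent_congr fun o o' => ?_
    simp only [Prod.mk.injEq]
    constructor
    · rintro ⟨a, b, -⟩; exact ⟨b, a⟩
    · rintro ⟨b, a⟩; exact ⟨a, b, h2 o o' b⟩
  have e4 : Ent A.w (fun o => (B.J (e o), A.J o)) = Ent A.w (fun o => B.J (e o)) := by
    refine Ent_congr fun o o' => ?_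
    simp only [Prod.mk.injEq]
    constructor
    · rintro ⟨a, -⟩; exact a
    · intro a; exact ⟨a, h2 o o' a⟩
  have e5 : Ent A.w (fun o => ((QuotientAddGroup.mk (A.Y o) : G ⧸ H), A.J o)) =
      Ent A.w (fun o => (A.J o, (QuotientAddGroup.mk (A.Y o) : G ⧸ H))) := by
    refine Ent_congr fun o o' => ?_
    simp only [Prod.mk.injEq]
    tauto
  rw [e3, e4, e5] at h4
  rw [e1, e2]
  linarith

theorem Sim.D_eq {A B : Fam G} (h : Sim A B) (H : AddSubgroup G) : A.D H = B.D H :=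
  le_antisymm (h.fine.D_le H) (h.symm.fine.D_le H)

theorem Sim.add {A A' B B' : Fam G} (h : Sim A A') (h' : Sim B B') :
    Sim (A.add B) (A'.add B') := by
  obtain ⟨e, h1, h2, h3⟩ := h
  obtain ⟨e', h1', h2', h3'⟩ := h'
  refine ⟨Equiv.prodCongr e e', fun o => ?_, fun o o' => ?_, fun o o' h => ?_⟩
  · show A'.w (e o.1) * B'.w (e' o.2) = A.w o.1 * B.w o.2
    rw [h1, h1']
  · show (A.J o.1, B.J o.2) = (A.J o'.1, B.J o'.2) ↔
      (A'.J (e o.1), B'.J (e' o.2)) = (A'.J (e o'.1), B'.J (e' o'.2))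
    rw [Prod.mk.injEq, Prod.mk.injEq, h2, h2']
  · have h4 : A.J o.1 = A.J o'.1 := congrArg Prod.fst h
    have h5 : B.J o.2 = B.J o'.2 := congrArg Prod.snd h
    show A.Y o.1 + B.Y o.2 - (A.Y o'.1 + B.Y o'.2) =
      A'.Y (e o.1) + B'.Y (e' o.2) - (A'.Y (e o'.1) + B'.Y (e' o'.2))
    rw [add_sub_add_comm, add_sub_add_comm, h3 _ _ h4, h3' _ _ h5]

theorem Fine.add {A A' B B' : Fam G} (h : Fine A A') (h' : Fine B B') :
    Fine (A.add B) (A'.add B') := by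
  obtain ⟨e, h1, h2, h3⟩ := h
  obtain ⟨e', h1', h2', h3'⟩ := h'
  refine ⟨Equiv.prodCongr e e', fun o => ?_, fun o o' h => ?_, fun o o' h => ?_⟩
  · show A'.w (e o.1) * B'.w (e' o.2) = A.w o.1 * B.w o.2
    rw [h1, h1']
  · have h4 : A'.J (e o.1) = A'.J (e o'.1) := congrArg Prod.fst h
    have h5 : B'.J (e' o.2) = B'.J (e' o'.2) := congrArg Prod.snd h
    exact Prod.ext (h2 _ _ h4) (h2' _ _ h5)
  · have h4 : A'.J (e o.1) = A'.J (e o'.1) := congrArg Prod.fst h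
    have h5 : B'.J (e' o.2) = B'.J (e' o'.2) := congrArg Prod.snd h
    show A.Y o.1 + B.Y o.2 - (A.Y o'.1 + B.Y o'.2) =
      A'.Y (e o.1) + B'.Y (e' o.2) - (A'.Y (e o'.1) + B'.Y (e' o'.2))
    rw [add_sub_add_comm, add_sub_add_comm, h3 _ _ h4, h3' _ _ h5]

theorem Sim.comm (A B : Fam G) : Sim (A.add B) (B.add A) := by
  refine ⟨Equiv.prodComm _ _, fun o => ?_, fun o o' => ?_, fun o o' h => ?_⟩
  · show B.w o.2 * A.w o.1 = A.w o.1 * B.w o.2
    ring
  · show (A.J o.1, B.J o.2) = (A.J o'.1, B.J o'.2) ↔ (B.J o.2, A.J o.1) = (B.J o'.2, A.J o'.1)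
    simp only [Prod.mk.injEq]
    tauto
  · show A.Y o.1 + B.Y o.2 - (A.Y o'.1 + B.Y o'.2) = B.Y o.2 + A.Y o.1 - (B.Y o'.2 + A.Y o'.1)
    abel

theorem Sim.assoc (A B C : Fam G) : Sim ((A.add B).add C) (A.add (B.add C)) := by
  refine ⟨Equiv.prodAssoc _ _ _, fun o => ?_, fun o o' => ?_, fun o o' h => ?_⟩
  · show A.w o.1.1 * (B.w o.1.2 * C.w o.2) = A.w o.1.1 * B.w o.1.2 * C.w o.2
    ring
  · show ((A.J o.1.1, B.J o.1.2), C.J o.2) = ((A.J o'.1.1, B.J o'.1.2), C.J o'.2) ↔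
      (A.J o.1.1, (B.J o.1.2, C.J o.2)) = (A.J o'.1.1, (B.J o'.1.2, C.J o'.2))
    simp only [Prod.mk.injEq]
    tauto
  · show A.Y o.1.1 + B.Y o.1.2 + C.Y o.2 - (A.Y o'.1.1 + B.Y o'.1.2 + C.Y o'.2) =
      A.Y o.1.1 + (B.Y o.1.2 + C.Y o.2) - (A.Y o'.1.1 + (B.Y o'.1.2 + C.Y o'.2))
    abel

theorem D_add_comm (A B : Fam G) (H : AddSubgroup G) : (A.add B).D H = (B.add A).D H :=
  (Sim.comm A B).D_eq H

theorem D_add_le' (A B : Fam G) (H : AddSubgroup G) : (A.add B).D H ≤ B.D H := by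
  rw [D_add_comm]
  exact D_add_le B A H

theorem Sim.fib {A A' B B' : Fam G} (h : Sim A A') (h' : Sim B B') :
    Sim (A.fib B) (A'.fib B') := by
  obtain ⟨e, h1, h2, h3⟩ := h
  obtain ⟨e', h1', h2', h3'⟩ := h'
  have key : ∀ o o' : A.Ω × B.Ω, A.J o.1 = A.J o'.1 → B.J o.2 = B.J o'.2 →
      (A.Y o.1 + B.Y o.2 = A.Y o'.1 + B.Y o'.2 ↔
        A'.Y (e o.1) + B'.Y (e' o.2) = A'.Y (e o'.1) + B'.Y (e' o'.2)) := by
    intro o o' h4 h5
    rw [← sub_eq_zero, add_sub_add_comm, h3 _ _ h4, h3' _ _ h5, ← add_sub_add_comm, sub_eq_zero]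
  refine ⟨Equiv.prodCongr e e', fun o => ?_, fun o o' => ?_, fun o o' h => ?_⟩
  · show A'.w (e o.1) * B'.w (e' o.2) = A.w o.1 * B.w o.2
    rw [h1, h1']
  · show ((A.J o.1, B.J o.2), A.Y o.1 + B.Y o.2) = ((A.J o'.1, B.J o'.2), A.Y o'.1 + B.Y o'.2) ↔
      ((A'.J (e o.1), B'.J (e' o.2)), A'.Y (e o.1) + B'.Y (e' o.2)) =
      ((A'.J (e o'.1), B'.J (e' o'.2)), A'.Y (e o'.1) + B'.Y (e' o'.2))
    simp only [Prod.mk.injEq]
    constructor
    · rintro ⟨⟨a, b⟩, c⟩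
      exact ⟨⟨(h2 _ _).1 a, (h2' _ _).1 b⟩, (key o o' a b).1 c⟩
    · rintro ⟨⟨a, b⟩, c⟩
      have a' := (h2 _ _).2 a
      have b' := (h2' _ _).2 b
      exact ⟨⟨a', b'⟩, (key o o' a' b').2 c⟩
  · have h4 : A.J o.1 = A.J o'.1 := congrArg (fun z => z.1.1) h
    exact h3 _ _ h4

theorem Sim.mod {A A' : Fam G} (h : Sim A A') (V : AddSubgroup G) :
    Sim (A.mod V) (A'.mod V) := by
  obtain ⟨e, h1, h2, h3⟩ := h
  refine ⟨e, h1, h2, fun o o' h => ?_⟩
  show (QuotientAddGroup.mk (A.Y o) : G ⧸ V) - QuotientAddGroup.mk (A.Y o') =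
    QuotientAddGroup.mk (A'.Y (e o)) - QuotientAddGroup.mk (A'.Y (e o'))
  rw [← QuotientAddGroup.mk_sub, ← QuotientAddGroup.mk_sub, h3 _ _ h]

/-! ### The family `(Y | Y mod V)` in `V` -/

theorem sub_out_mem (V : AddSubgroup G) (g : G) :
    g - (QuotientAddGroup.mk g : G ⧸ V).out ∈ V := by
  rw [← mk_eq_iff]
  exact (Quotient.out_eq' _).symm

/-- the family `(Y | J, Y mod V)`, with values in `V` -/
noncomputable def resV (A : Fam G) (V : AddSubgroup G) : Fam V where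
  Ω := A.Ω
  ι := A.ι × (G ⧸ V)
  fin := inferInstance
  w := A.w
  hw := A.hw
  J := fun o => (A.J o, QuotientAddGroup.mk (A.Y o))
  Y := fun o => ⟨A.Y o - (QuotientAddGroup.mk (A.Y o) : G ⧸ V).out, sub_out_mem V _⟩

theorem resV_sub (A : Fam G) (V : AddSubgroup G) {o o' : A.Ω} (h : A.Y o - A.Y o' ∈ V) :
    (((A.resV V).Y o - (A.resV V).Y o' : V) : G) = A.Y o - A.Y o' := by
  show A.Y o - (QuotientAddGroup.mk (A.Y o) : G ⧸ V).out -
    (A.Y o' - (QuotientAddGroup.mk (A.Y o') : G ⧸ V).out) = A.Y o - A.Y o'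
  rw [(mk_eq_iff V _ _).2 h]
  abel

theorem resV_J (A : Fam G) (V : AddSubgroup G) (o o' : A.Ω) :
    (A.resV V).J o = (A.resV V).J o' ↔ A.J o = A.J o' ∧ A.Y o - A.Y o' ∈ V := by
  show (A.J o, (QuotientAddGroup.mk (A.Y o) : G ⧸ V)) =
    (A.J o', (QuotientAddGroup.mk (A.Y o') : G ⧸ V)) ↔ _
  rw [Prod.mk.injEq, mk_eq_iff]

theorem mem_map_subtype (V : AddSubgroup G) (K : AddSubgroup V) (v : V) :
    (v : G) ∈ K.map V.subtype ↔ v ∈ K := by
  constructor
  · rintro ⟨u, hu, huv⟩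
    have : u = v := Subtype.ext huv
    rwa [← this]
  · intro hv
    exact ⟨v, hv, rfl⟩

theorem map_subtype_le (V : AddSubgroup G) (K : AddSubgroup V) : K.map V.subtype ≤ V := by
  rintro _ ⟨v, -, rfl⟩
  exact v.2

theorem log_index_map [Finite G] (V : AddSubgroup G) (K : AddSubgroup V) :
    Real.log (K.map V.subtype).index = Real.log K.index + Real.log V.index := by
  have h1 : (K.map V.subtype).index = K.index * V.index := by
    rw [AddSubgroup.index_map]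
    have h2 : V.subtype.ker = ⊥ := AddSubgroup.ker_subtype V
    rw [h2, sup_bot_eq, AddSubgroup.range_subtype]
  rw [h1, Nat.cast_mul, Real.log_mul]
  · exact_mod_cast AddSubgroup.index_ne_zero_of_finite (H := K)
  · exact_mod_cast AddSubgroup.index_ne_zero_of_finite (H := V)

theorem resV_D [Finite G] (A : Fam G) (V : AddSubgroup G) (K : AddSubgroup V) :
    (A.resV V).D K = A.D (K.map V.subtype) - A.D V := by
  have e1 : Ent (A.resV V).w (fun o => ((A.resV V).J o,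
      (QuotientAddGroup.mk ((A.resV V).Y o) : V ⧸ K))) =
      Ent A.w (fun o => (A.J o, (QuotientAddGroup.mk (A.Y o) : G ⧸ K.map V.subtype))) := by
    refine Ent_congr fun o o' => ?_
    rw [Prod.mk.injEq, Prod.mk.injEq, mk_eq_iff, mk_eq_iff, resV_J]
    constructor
    · rintro ⟨⟨a, b⟩, c⟩
      refine ⟨a, ?_⟩
      rw [← resV_sub A V b]
      exact (mem_map_subtype V K _).2 c
    · rintro ⟨a, b⟩
      have h1 := map_subtype_le V K b
      refine ⟨⟨a, h1⟩, ?_⟩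
      rw [← mem_map_subtype V K, resV_sub A V h1]
      exact b
  have e2 : Ent (A.resV V).w (A.resV V).J =
      Ent A.w (fun o => (A.J o, (QuotientAddGroup.mk (A.Y o) : G ⧸ V))) := rfl
  unfold D c
  rw [e1, e2, log_index_map]
  ring

theorem resV_D_bot [Finite G] (A : Fam G) (V : AddSubgroup G) :
    (A.resV V).D ⊥ = A.D ⊥ - A.D V := by
  rw [resV_D, AddSubgroup.map_bot]

theorem Sim.resV {A A' : Fam G} (h : Sim A A') (V : AddSubgroup G) :
    Sim (A.resV V) (A'.resV V) := by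
  obtain ⟨e, h1, h2, h3⟩ := h
  refine ⟨e, h1, fun o o' => ?_, fun o o' h => ?_⟩
  · refine (resV_J A V o o').trans (Iff.trans ?_ (resV_J A' V (e o) (e o')).symm)
    constructor
    · rintro ⟨a, b⟩
      have h4 : A.Y o - A.Y o' = A'.Y (e o) - A'.Y (e o') := h3 o o' a
      exact ⟨(h2 _ _).1 a, h4 ▸ b⟩
    · rintro ⟨a, b⟩
      have a' := (h2 _ _).2 a
      have h4 : A.Y o - A.Y o' = A'.Y (e o) - A'.Y (e o') := h3 o o' a'
      exact ⟨a', h4.symm ▸ b⟩
  · obtain ⟨a, b⟩ := (resV_J A V o o').1 h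
    have h4 : A.Y o - A.Y o' = A'.Y (e o) - A'.Y (e o') := h3 o o' a
    have b' : A'.Y (e o) - A'.Y (e o') ∈ V := h4 ▸ b
    exact Subtype.ext ((resV_sub A V b).trans (h4.trans (resV_sub A' V b').symm))

/-- the conditioned sum has less side information than the sum of the conditioned families -/
theorem fine_add_resV (A B : Fam G) (V : AddSubgroup G) :
    Fine ((A.add B).resV V) ((A.resV V).add (B.resV V)) := by
  refine ⟨Equiv.refl _, fun _ => rfl, fun o o' h => ?_, fun o o' h => ?_⟩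
  · have h1 := (resV_J A V o.1 o'.1).1 (congrArg Prod.fst h)
    have h2 := (resV_J B V o.2 o'.2).1 (congrArg Prod.snd h)
    rw [resV_J]
    refine ⟨Prod.ext h1.1 h2.1, ?_⟩
    show A.Y o.1 + B.Y o.2 - (A.Y o'.1 + B.Y o'.2) ∈ V
    rw [add_sub_add_comm]
    exact V.add_mem h1.2 h2.2
  · have h1 := (resV_J A V o.1 o'.1).1 (congrArg Prod.fst h)
    have h2 := (resV_J B V o.2 o'.2).1 (congrArg Prod.snd h)
    apply Subtype.ext
    have h3 : (A.add B).Y o - (A.add B).Y o' ∈ V := by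
      show A.Y o.1 + B.Y o.2 - (A.Y o'.1 + B.Y o'.2) ∈ V
      rw [add_sub_add_comm]
      exact V.add_mem h1.2 h2.2
    rw [resV_sub (A.add B) V h3]
    show A.Y o.1 + B.Y o.2 - (A.Y o'.1 + B.Y o'.2) =
      (((A.resV V).Y o.1 + (B.resV V).Y o.2 - ((A.resV V).Y o'.1 + (B.resV V).Y o'.2) : V) : G)
    rw [add_sub_add_comm, add_sub_add_comm, AddSubgroup.coe_add, resV_sub A V h1.2,
      resV_sub B V h2.2]

/-- **splitting the deficiency of a sum** -/
theorem add_le_mod_res [Finite G] (A B : Fam G) (V : AddSubgroup G) :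
    (A.add B).D ⊥ ≤ ((A.mod V).add (B.mod V)).D ⊥ + ((A.resV V).add (B.resV V)).D ⊥ := by
  have h1 := (fine_add_resV A B V).D_le ⊥
  rw [resV_D_bot] at h1
  have h2 : ((A.mod V).add (B.mod V)).D ⊥ = (A.add B).D V := by
    rw [← add_mod, mod_D_bot]
  rw [h2]
  linarith

theorem add_D_mod [Finite G] (A B : Fam G) (V : AddSubgroup G) :
    ((A.mod V).add (B.mod V)).D ⊥ = (A.add B).D V := by
  rw [← add_mod, mod_D_bot]

/-- conditioning of the fibre family -/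
theorem Sim.fib_resV (A B : Fam G) (V : AddSubgroup G) :
    Sim ((A.fib B).resV V) ((A.resV V).fib (B.resV V)) := by
  have key : ∀ o o' : A.Ω × B.Ω, A.Y o.1 - A.Y o'.1 ∈ V → B.Y o.2 - B.Y o'.2 ∈ V →
      ((A.resV V).Y o.1 + (B.resV V).Y o.2 = (A.resV V).Y o'.1 + (B.resV V).Y o'.2 ↔
        A.Y o.1 + B.Y o.2 = A.Y o'.1 + B.Y o'.2) := by
    intro o o' a b
    rw [← sub_eq_zero, add_sub_add_comm, ← sub_eq_zero (b := A.Y o'.1 + B.Y o'.2),
      add_sub_add_comm (A.Y o.1), ← resV_sub A V a, ← resV_sub B V b, ← AddSubgroup.coe_add,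
      ZeroMemClass.coe_eq_zero]
  refine ⟨Equiv.refl _, fun _ => rfl, fun o o' => ?_, fun o o' h => ?_⟩
  · rw [resV_J]
    show ((A.J o.1, B.J o.2), A.Y o.1 + B.Y o.2) = ((A.J o'.1, B.J o'.2), A.Y o'.1 + B.Y o'.2) ∧
        A.Y o.1 - A.Y o'.1 ∈ V ↔
      (((A.resV V).J o.1, (B.resV V).J o.2), (A.resV V).Y o.1 + (B.resV V).Y o.2) =
      (((A.resV V).J o'.1, (B.resV V).J o'.2), (A.resV V).Y o'.1 + (B.resV V).Y o'.2)
    simp only [Prod.mk.injEq]
    constructor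
    · rintro ⟨⟨⟨a, b⟩, c⟩, d⟩
      have d' : B.Y o.2 - B.Y o'.2 ∈ V := by
        have h1 : A.Y o.1 + B.Y o.2 - (A.Y o'.1 + B.Y o'.2) = 0 := sub_eq_zero.2 c
        rw [add_sub_add_comm] at h1
        have h2 : B.Y o.2 - B.Y o'.2 = -(A.Y o.1 - A.Y o'.1) := (neg_eq_of_add_eq_zero_right h1).symm
        rw [h2]
        exact V.neg_mem d
      refine ⟨⟨(resV_J A V _ _).2 ⟨a, d⟩, (resV_J B V _ _).2 ⟨b, d'⟩⟩, (key o o' d d').2 c⟩
    · rintro ⟨⟨a, b⟩, c⟩
      have a' := (resV_J A V _ _).1 a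
      have b' := (resV_J B V _ _).1 b
      exact ⟨⟨⟨a'.1, b'.1⟩, (key o o' a'.2 b'.2).1 c⟩, a'.2⟩
  · have h1 := (resV_J (A.fib B) V o o').1 h
    apply Subtype.ext
    rw [resV_sub (A.fib B) V h1.2]
    show A.Y o.1 - A.Y o'.1 = (((A.resV V).Y o.1 - (A.resV V).Y o'.1 : V) : G)
    rw [resV_sub A V h1.2]

/-- **the deficiency of the fibre family** -/
theorem fib_D_general [Finite G] (A B : Fam G) (H : AddSubgroup G) :
    (A.fib B).D H = A.D H + B.D H + ((A.resV H).add (B.resV H)).D ⊥ - (A.add B).D ⊥ := by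
  have e1 : Ent (A.fib B).w (fun o => ((A.fib B).J o,
      (QuotientAddGroup.mk ((A.fib B).Y o) : G ⧸ H))) =
      Ent ((A.resV H).add (B.resV H)).w (fun o => (((A.resV H).add (B.resV H)).J o,
        ((A.resV H).add (B.resV H)).Y o)) := by
    refine Ent_congr fun o o' => ?_
    have hs := Sim.fib_resV A B H
    show (((A.J o.1, B.J o.2), A.Y o.1 + B.Y o.2), (QuotientAddGroup.mk (A.Y o.1) : G ⧸ H)) =
        (((A.J o'.1, B.J o'.2), A.Y o'.1 + B.Y o'.2), (QuotientAddGroup.mk (A.Y o'.1) : G ⧸ H)) ↔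
      (((A.resV H).J o.1, (B.resV H).J o.2), (A.resV H).Y o.1 + (B.resV H).Y o.2) =
      (((A.resV H).J o'.1, (B.resV H).J o'.2), (A.resV H).Y o'.1 + (B.resV H).Y o'.2)
    have key : A.Y o.1 - A.Y o'.1 ∈ H → B.Y o.2 - B.Y o'.2 ∈ H →
        ((A.resV H).Y o.1 + (B.resV H).Y o.2 = (A.resV H).Y o'.1 + (B.resV H).Y o'.2 ↔
          A.Y o.1 + B.Y o.2 = A.Y o'.1 + B.Y o'.2) := by
      intro a b
      rw [← sub_eq_zero, add_sub_add_comm, ← sub_eq_zero (b := A.Y o'.1 + B.Y o'.2),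
        add_sub_add_comm (A.Y o.1), ← resV_sub A H a, ← resV_sub B H b, ← AddSubgroup.coe_add,
        ZeroMemClass.coe_eq_zero]
    simp only [Prod.mk.injEq, mk_eq_iff]
    constructor
    · rintro ⟨⟨⟨a, b⟩, c⟩, d⟩
      have d' : B.Y o.2 - B.Y o'.2 ∈ H := by
        have h1 : A.Y o.1 + B.Y o.2 - (A.Y o'.1 + B.Y o'.2) = 0 := sub_eq_zero.2 c
        rw [add_sub_add_comm] at h1
        have h2 : B.Y o.2 - B.Y o'.2 = -(A.Y o.1 - A.Y o'.1) := (neg_eq_of_add_eq_zero_right h1).symm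
        rw [h2]
        exact H.neg_mem d
      refine ⟨⟨(resV_J A H _ _).2 ⟨a, d⟩, (resV_J B H _ _).2 ⟨b, d'⟩⟩, (key d d').2 c⟩
    · rintro ⟨⟨a, b⟩, c⟩
      have a' := (resV_J A H _ _).1 a
      have b' := (resV_J B H _ _).1 b
      exact ⟨⟨⟨a'.1, b'.1⟩, (key a'.2 b'.2).1 c⟩, a'.2⟩
  have e2 : Ent ((A.resV H).add (B.resV H)).w ((A.resV H).add (B.resV H)).J =
      Ent A.w (fun o => (A.J o, (QuotientAddGroup.mk (A.Y o) : G ⧸ H))) +
      Ent B.w (fun o => (B.J o, (QuotientAddGroup.mk (B.Y o) : G ⧸ H))) :=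
    Ent_prod A.hw B.hw (fun o => (A.J o, (QuotientAddGroup.mk (A.Y o) : G ⧸ H)))
      (fun o => (B.J o, (QuotientAddGroup.mk (B.Y o) : G ⧸ H)))
  have e3 : Ent (A.add B).w (A.add B).J = Ent A.w A.J + Ent B.w B.J := Ent_prod A.hw B.hw A.J B.J
  have e4 : Ent (A.fib B).w (A.fib B).J =
      Ent (A.add B).w (fun o => ((A.add B).J o, (A.add B).Y o)) := rfl
  have e5 : Real.log (Nat.card G) = Real.log (Nat.card H) + Real.log H.index := by
    have h1 : (Nat.card G : ℝ) = Nat.card H * H.index := by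
      exact_mod_cast (AddSubgroup.card_mul_index H).symm
    rw [h1, Real.log_mul]
    · exact_mod_cast Nat.card_pos.ne'
    · exact_mod_cast AddSubgroup.index_ne_zero_of_finite (H := H)
  rw [D_bot, D_bot]
  unfold D c
  rw [e1, e2, e3, e4, e5]
  ring

end Fam

end Pool.Agent.Helper15.BP
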