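import Pool.Agent.Helper25.P2.Pair
import Pool.Agent.Helper73.BG.MFold

/-!
# Contraction of `(m+1)`-fold sums from the bound for `U`

`contrM_of_ufin`: if `U k ≤ M_ε k^(2-ε)` for all `k ≤ 1` and `ε > 0`, then for all `m ≥ 1` and
`ε > 0` there is `C` with `ContrM m k (C k^(m-ε))` for all `k ≤ 1`.
-/

set_option autoImplicit false

namespace Pool.Agent.Helper15.BP

open Finset
open Pool.Agent.Helper92.BQ (UB U UFIN)

theorem UB_mono {k u v : ℝ} (h : UB k u) (huv : u ≤ v) : UB k v := by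
  intro G _ _ h2 A hA
  exact (h G h2 A hA).trans (mul_le_mul_of_nonneg_right huv (Real.log_natCast_nonneg _))

theorem UB_U (k : ℝ) : UB k (U k) := by
  intro G _ _ h2 A hA
  rcases subsingleton_or_nontrivial G with hs | hs
  · have h := (A.add A).D_le_log_card
    have h3 : Nat.card G = 1 := Nat.card_unique
    rw [h3, Nat.cast_one, Real.log_one] at h ⊢
    simpa using h
  · have hn : 0 < Real.log (Nat.card G) := by
      apply Real.log_pos
      exact_mod_cast Finite.one_lt_card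
    rw [← div_le_iff₀ hn]
    apply le_csInf
    · refine ⟨1, zero_le_one, ?_⟩
      intro G _ _ _ A _
      rw [one_mul]
      exact (A.add A).D_le_log_card
    · rintro u ⟨_, hu⟩
      rw [div_le_iff₀ hn]
      exact hu G h2 A hA

namespace Fam

variable {G : Type} [AddCommGroup G]

theorem mF_le_D [Finite G] (A : Fam G) (H : AddSubgroup G) (m : ℕ) : (mF A m).D H ≤ A.D H := by
  induction m with
  | zero => exact le_rfl
  | succ m ih => exact (mF_succ_le A H m).trans ih

theorem mF_rec [Finite G] (h2 : ∀ x : G, x + x = 0) {τ K₀ μ : ℝ} (hτ : 0 < τ) (hK₀ : 0 ≤ K₀)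
    (hμ : 0 ≤ μ) (hU : ∀ u : ℝ, τ ≤ u → u ≤ 1 → UB u (K₀ / 2 * u ^ 2)) (A : Fam G)
    (hA : ∀ K : AddSubgroup G, A.D K ≤ μ * Real.log K.index) (j : ℕ) :
    (mF A j).D ⊥ ≤ ((K₀ * μ) ^ j * μ + τ * ∑ i ∈ range j, (K₀ * μ) ^ i) *
      Real.log (Nat.card G) := by
  induction j with
  | zero =>
    have h := hA ⊥
    rw [AddSubgroup.index_bot] at h
    rw [pow_zero, one_mul, range_zero, sum_empty, mul_zero, add_zero]
    exact h
  | succ j ih =>
    have h := pair_claim hτ hK₀ hU G h2 A (mF A j) μ 0 1 hμ le_rfl zero_le_one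
      (fun K => by rw [add_zero]; exact hA K)
      (fun K => by rw [one_mul]; exact (mF A j).D_le_log_index K)
    rw [zero_mul, add_zero] at h
    have h3 : (mF A (j + 1)).D ⊥ ≤ K₀ * (μ * (mF A j).D ⊥) + τ * Real.log (Nat.card G) := h
    have h4 : K₀ * (μ * (mF A j).D ⊥) ≤ K₀ * (μ * (((K₀ * μ) ^ j * μ +
        τ * ∑ i ∈ range j, (K₀ * μ) ^ i) * Real.log (Nat.card G))) :=
      mul_le_mul_of_nonneg_left (mul_le_mul_of_nonneg_left ih hμ) hK₀
    have h5 : ∑ i ∈ range (j + 1), (K₀ * μ) ^ i =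
        K₀ * μ * ∑ i ∈ range j, (K₀ * μ) ^ i + 1 := by
      rw [sum_range_succ', mul_sum, pow_zero]
      congr 1
      refine sum_congr rfl fun i _ => ?_
      rw [pow_succ]
      ring
    rw [h5, pow_succ]
    calc (mF A (j + 1)).D ⊥ ≤ _ := h3
      _ ≤ _ := add_le_add h4 le_rfl
      _ = _ := by ring

/-- peeling: from semistable families to all families of slopes at most `k` -/
theorem mF_peel (m : ℕ) {k σ : ℝ} (hσ : 0 ≤ σ)
    (hs : ∀ (G : Type) [AddCommGroup G] [Finite G] [Nontrivial G], (∀ x : G, x + x = 0) →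
      ∀ (A : Fam G) (μ : ℝ), 0 ≤ μ → μ ≤ k → (∀ K : AddSubgroup G, A.D K ≤ μ * Real.log K.index) →
        A.D ⊥ = μ * Real.log (Nat.card G) → (mF A m).D ⊥ ≤ σ * A.D ⊥) : ContrM m k σ := by
  have main : ∀ N : ℕ, ∀ (G : Type) [AddCommGroup G] [Finite G], (∀ x : G, x + x = 0) →
      Nat.card G ≤ N → ∀ A : Fam G, (∀ K : AddSubgroup G, A.D K ≤ k * Real.log K.index) →
        (mF A m).D ⊥ ≤ σ * A.D ⊥ := by
    intro N
    induction N with
    | zero =>
      intro G _ _ _ hG
      have := Nat.card_pos (α := G)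
      omega
    | succ N ih =>
      intro G _ _ h2 hG A hA
      rcases subsingleton_or_nontrivial G with hsub | hnt
      · have h1 : (mF A m).D ⊥ ≤ 0 := by
          have h := (mF A m).D_le_log_card
          have h3 : Nat.card G = 1 := Nat.card_unique
          rwa [h3, Nat.cast_one, Real.log_one] at h
        have h3 : 0 ≤ σ * A.D ⊥ := mul_nonneg hσ (A.D_nonneg ⊥)
        linarith
      · obtain ⟨H, μ, hHt, hμ, hHe, hAs⟩ := exists_max_slope A
        have hμk : μ ≤ k := by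
          have h3 := hA H
          rw [hHe] at h3
          exact le_of_mul_le_mul_right h3 (log_index_pos hHt)
        by_cases hHb : H = ⊥
        · rw [hHb, AddSubgroup.index_bot] at hHe
          exact hs G h2 A μ hμ hμk hAs hHe
        · have h1 := mF_le A H m
          have h3 := ih (G ⧸ H) (quot_exp2 h2 H)
            (by have := index_lt_of_ne_bot hHb; omega) (A.mod H) (fun K => by
              rw [mod_D, ← AddSubgroup.index_comap_of_surjective K
                (QuotientAddGroup.mk'_surjective H)]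
              exact hA _)
          rw [mod_D_bot] at h3
          have h4 := ih H (sub_exp2 h2 H)
            (by have := card_lt_of_ne_top hHt; omega) (A.resV H) (fun K => by
              rw [resV_D, hHe]
              have h5 := hAs (K.map H.subtype)
              rw [log_index_map] at h5
              have h6 : μ * Real.log K.index ≤ k * Real.log K.index :=
                mul_le_mul_of_nonneg_right hμk (log_index_nonneg K)
              linarith)
          rw [resV_D_bot] at h4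
          linarith
  intro G _ _ h2 A hA
  exact main (Nat.card G) G h2 le_rfl A hA

end Fam

open Fam

/-- contraction of sums of `m + 1` copies, small exponents -/
theorem contrM_aux (m : ℕ) (hm : 1 ≤ m) (ε M : ℝ) (hε : 0 < ε) (hε1 : ε ≤ 1) (hM : 1 ≤ M)
    (hU : ∀ k : ℝ, 0 < k → k ≤ 1 → U k ≤ M * k ^ (2 - ε / (m * (m + 1)))) (k : ℝ)
    (hk : 0 < k) (hk1 : k ≤ 1) :
    ContrM m k ((m + 1) * (2 * M) ^ m * k ^ ((m : ℝ) - ε)) := by
  have hm0 : (0 : ℝ) < m := by exact_mod_cast hm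
  have hm1 : (1 : ℝ) ≤ m := by exact_mod_cast hm
  set e := ε / (m * (m + 1)) with he
  have he0 : 0 < e := by positivity
  have hem : e * (m + 1) * m = ε := by
    rw [he]
    field_simp
  have hem1 : e * (m + 1) ≤ 1 := by
    by_contra h
    rw [not_le] at h
    nlinarith
  refine mF_peel m (by positivity) ?_
  intro G _ _ _ h2 A μ hμ hμk hAs hAe
  rcases hμ.eq_or_lt with h0 | hμ0
  · -- slope zero
    have h3 := mF_le_D A ⊥ m
    rw [hAe, ← h0, zero_mul] at h3 ⊢
    rwa [mul_zero]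
  · have hμ1 : μ ≤ 1 := hμk.trans hk1
    set L := Real.log (Nat.card G) with hL
    have hL0 : 0 ≤ L := Real.log_natCast_nonneg _
    set τ := μ ^ ((m : ℝ) + 1) with hτ
    have hτ0 : 0 < τ := Real.rpow_pos_of_pos hμ0 _
    set K₀ := 2 * M * τ ^ (-e) with hK₀
    have hK₀0 : 0 ≤ K₀ := by positivity
    have hUB : ∀ u : ℝ, τ ≤ u → u ≤ 1 → UB u (K₀ / 2 * u ^ 2) := by
      intro u hu hu1
      have hu0 : 0 < u := lt_of_lt_of_le hτ0 hu
      refine UB_mono (UB_U u) ((hU u hu0 hu1).trans ?_)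
      have h3 : u ^ (2 - e) = u ^ (-e) * u ^ 2 := by
        rw [← Real.rpow_natCast u 2, ← Real.rpow_add hu0]
        congr 1
        push_cast
        ring
      have h4 : u ^ (-e) ≤ τ ^ (-e) :=
        Real.rpow_le_rpow_of_nonpos hτ0 hu (by linarith)
      rw [h3, hK₀]
      have h5 : u ^ (-e) * u ^ 2 ≤ τ ^ (-e) * u ^ 2 :=
        mul_le_mul_of_nonneg_right h4 (by positivity)
      calc M * (u ^ (-e) * u ^ 2) ≤ M * (τ ^ (-e) * u ^ 2) :=
            mul_le_mul_of_nonneg_left h5 (by linarith)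
        _ = _ := by ring
    have h3 := mF_rec h2 hτ0 hK₀0 hμ hUB A hAs m
    -- `K₀ μ = 2 M μ^(1 - e (m+1))`
    have h4 : K₀ * μ = 2 * M * μ ^ (1 - e * (m + 1)) := by
      rw [hK₀, hτ, ← Real.rpow_mul hμ]
      have h5 : μ ^ (1 - e * (m + 1)) = μ ^ (((m : ℝ) + 1) * -e) * μ := by
        nth_rewrite 3 [← Real.rpow_one μ]
        rw [← Real.rpow_add hμ0]
        congr 1
        ring
      rw [h5]
      ring
    have h5 : μ ^ (1 - e * (m + 1)) ≤ 1 := Real.rpow_le_one hμ hμ1 (by linarith)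
    have h5' : 0 ≤ μ ^ (1 - e * (m + 1)) := Real.rpow_nonneg hμ _
    have h6 : (K₀ * μ) ^ m = (2 * M) ^ m * μ ^ ((m : ℝ) - ε) := by
      rw [h4, mul_pow]
      congr 1
      rw [← Real.rpow_natCast (μ ^ (1 - e * (m + 1))) m, ← Real.rpow_mul hμ]
      congr 1
      rw [← hem]
      ring
    have h7 : K₀ * μ ≤ 2 * M := by
      rw [h4]
      nlinarith
    have h7' : 0 ≤ K₀ * μ := by positivity
    have h8 : ∑ i ∈ range m, (K₀ * μ) ^ i ≤ m * (2 * M) ^ m := by
      calc ∑ i ∈ range m, (K₀ * μ) ^ i ≤ ∑ _i ∈ range m, (2 * M) ^ m := by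
            refine sum_le_sum fun i hi => ?_
            calc (K₀ * μ) ^ i ≤ (2 * M) ^ i := pow_le_pow_left₀ h7' h7 i
              _ ≤ (2 * M) ^ m := pow_le_pow_right₀ (by linarith) (mem_range.1 hi).le
        _ = m * (2 * M) ^ m := by
            rw [sum_const, card_range, nsmul_eq_mul]
    have h9 : τ ≤ μ ^ ((m : ℝ) - ε) * μ := by
      have h10 : μ ^ ((m : ℝ) - ε) * μ = μ ^ ((m : ℝ) - ε + 1) := by
        rw [Real.rpow_add hμ0, Real.rpow_one]
      rw [h10, hτ]
      exact Real.rpow_le_rpow_of_exponent_ge hμ0 hμ1 (by linarith)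
    have h10 : μ ^ ((m : ℝ) - ε) ≤ k ^ ((m : ℝ) - ε) :=
      Real.rpow_le_rpow hμ hμk (by linarith)
    have hM0 : 0 ≤ (2 * M) ^ m := by positivity
    have h11 : τ * ∑ i ∈ range m, (K₀ * μ) ^ i ≤
        (μ ^ ((m : ℝ) - ε) * μ) * (m * (2 * M) ^ m) :=
      mul_le_mul h9 h8 (sum_nonneg fun i _ => pow_nonneg h7' i)
        (mul_nonneg (Real.rpow_nonneg hμ _) hμ)
    rw [hAe]
    calc (mF A m).D ⊥ ≤ _ := h3
      _ ≤ ((2 * M) ^ m * μ ^ ((m : ℝ) - ε) * μ +
            (μ ^ ((m : ℝ) - ε) * μ) * (m * (2 * M) ^ m)) * L := by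
          rw [h6]
          exact mul_le_mul_of_nonneg_right (add_le_add le_rfl h11) hL0
      _ = (m + 1) * (2 * M) ^ m * μ ^ ((m : ℝ) - ε) * (μ * L) := by ring
      _ ≤ _ := by
          refine mul_le_mul_of_nonneg_right ?_ (mul_nonneg hμ hL0)
          exact mul_le_mul_of_nonneg_left h10 (by positivity)

/-- **contraction of `(m+1)`-fold sums** -/
theorem contrM_of_ufin (hU : UFIN) (m : ℕ) (hm : 1 ≤ m) (ε : ℝ) (hε : 0 < ε) :
    ∃ C : ℝ, 1 ≤ C ∧ ∀ k : ℝ, 0 < k → k ≤ 1 → ContrM m k (C * k ^ ((m : ℝ) - ε)) := by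
  have hm0 : (0 : ℝ) < m := by exact_mod_cast hm
  set d := min ε 1 with hd
  have hd0 : 0 < d := lt_min hε one_pos
  obtain ⟨M, hM, hMU⟩ := hU (d / (m * (m + 1))) (by positivity)
  refine ⟨(m + 1) * (2 * M) ^ m, ?_, fun k hk hk1 => ?_⟩
  · have h1 : 1 ≤ (2 * M) ^ m := one_le_pow₀ (by linarith)
    nlinarith
  · have h := contrM_aux m hm d M hd0 (min_le_right _ _) hM hMU k hk hk1
    intro G _ _ h2 A hA
    refine (h G h2 A hA).trans (mul_le_mul_of_nonneg_right ?_ (A.D_nonneg ⊥))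
    refine mul_le_mul_of_nonneg_left ?_ (by positivity)
    exact Real.rpow_le_rpow_of_exponent_ge hk hk1 (by linarith [min_le_left ε 1])

end Pool.Agent.Helper15.BP
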