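import Pool.Agent.Helper25.P2.Base

/-!
# Public mixtures and thinning
-/

set_option autoImplicit false

namespace Pool.Agent.Helper15.BP

open Finset

namespace Fam

variable {G : Type} [AddCommGroup G]

/-- weights of the mixture -/
def mixW {Ω Ω' : Type} (p : ℝ) (w : Ω → ℝ) (w' : Ω' → ℝ) : Ω ⊕ Ω' → ℝ :=
  Sum.elim (fun o => p * w o) (fun o => (1 - p) * w' o)

theorem mixW_isPr {Ω Ω' : Type} [Fintype Ω] [Fintype Ω'] {p : ℝ} (hp0 : 0 ≤ p) (hp1 : p ≤ 1)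
    {w : Ω → ℝ} {w' : Ω' → ℝ} (hw : IsPr w) (hw' : IsPr w') : IsPr (mixW p w w') := by
  refine ⟨?_, ?_⟩
  · rintro (o | o)
    · exact mul_nonneg hp0 (hw.nonneg o)
    · exact mul_nonneg (by linarith) (hw'.nonneg o)
  · rw [Fintype.sum_sum_type]
    show ∑ o, p * w o + ∑ o, (1 - p) * w' o = 1
    rw [← Finset.mul_sum, ← Finset.mul_sum, hw.sum_one, hw'.sum_one]
    ring

theorem pr_mixW_inl {Ω Ω' γ : Type} [Fintype Ω] [Fintype Ω'] (p : ℝ) (w : Ω → ℝ) (w' : Ω' → ℝ)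
    (F : Ω ⊕ Ω' → γ) (hF : ∀ a b, F (Sum.inl a) ≠ F (Sum.inr b)) (a : Ω) :
    pr (mixW p w w') F (F (Sum.inl a)) = p * pr w (fun o => F (Sum.inl o)) (F (Sum.inl a)) := by
  classical
  unfold pr
  rw [Fintype.sum_sum_type, Finset.mul_sum]
  have h1 : ∑ b : Ω', (if F (Sum.inr b) = F (Sum.inl a) then mixW p w w' (Sum.inr b) else 0) = 0 :=
    Finset.sum_eq_zero fun b _ => if_neg (fun h => hF a b h.symm)
  rw [h1, add_zero]
  refine Finset.sum_congr rfl fun o _ => ?_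
  show (if F (Sum.inl o) = F (Sum.inl a) then p * w o else 0) =
    p * (if F (Sum.inl o) = F (Sum.inl a) then w o else 0)
  split_ifs <;> simp

theorem pr_mixW_inr {Ω Ω' γ : Type} [Fintype Ω] [Fintype Ω'] (p : ℝ) (w : Ω → ℝ) (w' : Ω' → ℝ)
    (F : Ω ⊕ Ω' → γ) (hF : ∀ a b, F (Sum.inl a) ≠ F (Sum.inr b)) (b : Ω') :
    pr (mixW p w w') F (F (Sum.inr b)) =
      (1 - p) * pr w' (fun o => F (Sum.inr o)) (F (Sum.inr b)) := by
  classical
  unfold pr
  rw [Fintype.sum_sum_type, Finset.mul_sum]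
  have h1 : ∑ a : Ω, (if F (Sum.inl a) = F (Sum.inr b) then mixW p w w' (Sum.inl a) else 0) = 0 :=
    Finset.sum_eq_zero fun a _ => if_neg (hF a b)
  rw [h1, zero_add]
  refine Finset.sum_congr rfl fun o _ => ?_
  show (if F (Sum.inr o) = F (Sum.inr b) then (1 - p) * w' o else 0) =
    (1 - p) * (if F (Sum.inr o) = F (Sum.inr b) then w' o else 0)
  split_ifs <;> simp

theorem sum_mul_log_mul {Ω γ : Type} [Fintype Ω] {w : Ω → ℝ} (hw : IsPr w) (f : Ω → γ) {p : ℝ}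
    (hp0 : 0 ≤ p) :
    ∑ o, p * w o * (-Real.log (p * pr w f (f o))) = p * Ent w f + Real.negMulLog p := by
  rcases hp0.eq_or_lt with h | h
  · rw [← h]
    simp
  · unfold Ent
    have h1 : ∀ o, p * w o * (-Real.log (p * pr w f (f o))) =
        p * (w o * (-Real.log (pr w f (f o)))) + (-(p * Real.log p)) * w o := by
      intro o
      rcases (hw.nonneg o).eq_or_lt with h0 | h0
      · rw [← h0]; ring
      · rw [Real.log_mul h.ne' (pr_pos hw f h0).ne']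
        ring
    rw [Finset.sum_congr rfl fun o _ => h1 o, Finset.sum_add_distrib, ← Finset.mul_sum,
      ← Finset.mul_sum, hw.sum_one, Real.negMulLog]
    ring

/-- entropy of a mixture whose two parts are publicly distinguished -/
theorem Ent_mixW {Ω Ω' γ : Type} [Fintype Ω] [Fintype Ω'] {p : ℝ} (hp0 : 0 ≤ p) (hp1 : p ≤ 1)
    {w : Ω → ℝ} {w' : Ω' → ℝ} (hw : IsPr w) (hw' : IsPr w') (F : Ω ⊕ Ω' → γ)
    (hF : ∀ a b, F (Sum.inl a) ≠ F (Sum.inr b)) :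
    Ent (mixW p w w') F = p * Ent w (fun o => F (Sum.inl o)) +
      (1 - p) * Ent w' (fun o => F (Sum.inr o)) + Real.negMulLog p + Real.negMulLog (1 - p) := by
  have h0 : Ent (mixW p w w') F =
      ∑ a, p * w a * (-Real.log (p * pr w (fun o => F (Sum.inl o)) (F (Sum.inl a)))) +
      ∑ b, (1 - p) * w' b *
        (-Real.log ((1 - p) * pr w' (fun o => F (Sum.inr o)) (F (Sum.inr b)))) := by
    unfold Ent
    rw [Fintype.sum_sum_type]
    congr 1
    · refine Finset.sum_congr rfl fun a _ => ?_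
      rw [pr_mixW_inl p w w' F hF a]
      rfl
    · refine Finset.sum_congr rfl fun b _ => ?_
      rw [pr_mixW_inr p w w' F hF b]
      rfl
  rw [h0, sum_mul_log_mul hw (fun o => F (Sum.inl o)) hp0,
    sum_mul_log_mul hw' (fun o => F (Sum.inr o)) (show (0 : ℝ) ≤ 1 - p by linarith)]
  ring

/-- the public mixture: `A` with probability `p`, `B` with probability `1 - p` -/
def mixF (p : ℝ) (hp0 : 0 ≤ p) (hp1 : p ≤ 1) (A B : Fam G) : Fam G where
  Ω := A.Ω ⊕ B.Ω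
  ι := A.ι ⊕ B.ι
  fin := inferInstance
  w := mixW p A.w B.w
  hw := mixW_isPr hp0 hp1 A.hw B.hw
  J := Sum.map A.J B.J
  Y := Sum.elim A.Y B.Y

theorem mixF_D {p : ℝ} (hp0 : 0 ≤ p) (hp1 : p ≤ 1) (A B : Fam G) (H : AddSubgroup G) :
    (mixF p hp0 hp1 A B).D H = p * A.D H + (1 - p) * B.D H := by
  have h1 := Ent_mixW hp0 hp1 A.hw B.hw (fun o => ((mixF p hp0 hp1 A B).J o,
    (QuotientAddGroup.mk ((mixF p hp0 hp1 A B).Y o) : G ⧸ H))) (fun a b h => by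
      have h2 := congrArg Prod.fst h
      exact Sum.inl_ne_inr h2)
  have h2 := Ent_mixW hp0 hp1 A.hw B.hw (mixF p hp0 hp1 A B).J (fun a b h =>
      Sum.inl_ne_inr h)
  have e1 : Ent A.w (fun o => ((mixF p hp0 hp1 A B).J (Sum.inl o),
      (QuotientAddGroup.mk ((mixF p hp0 hp1 A B).Y (Sum.inl o)) : G ⧸ H))) =
      Ent A.w (fun o => (A.J o, (QuotientAddGroup.mk (A.Y o) : G ⧸ H))) := by
    refine Ent_congr fun o o' => ?_
    show ((Sum.inl (A.J o) : A.ι ⊕ B.ι), (QuotientAddGroup.mk (A.Y o) : G ⧸ H)) =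
      (Sum.inl (A.J o'), (QuotientAddGroup.mk (A.Y o') : G ⧸ H)) ↔ _
    simp only [Prod.mk.injEq, Sum.inl.injEq]
  have e2 : Ent B.w (fun o => ((mixF p hp0 hp1 A B).J (Sum.inr o),
      (QuotientAddGroup.mk ((mixF p hp0 hp1 A B).Y (Sum.inr o)) : G ⧸ H))) =
      Ent B.w (fun o => (B.J o, (QuotientAddGroup.mk (B.Y o) : G ⧸ H))) := by
    refine Ent_congr fun o o' => ?_
    show ((Sum.inr (B.J o) : A.ι ⊕ B.ι), (QuotientAddGroup.mk (B.Y o) : G ⧸ H)) =
      (Sum.inr (B.J o'), (QuotientAddGroup.mk (B.Y o') : G ⧸ H)) ↔ _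
    simp only [Prod.mk.injEq, Sum.inr.injEq]
  have e3 : Ent A.w (fun o => (mixF p hp0 hp1 A B).J (Sum.inl o)) = Ent A.w A.J := by
    refine Ent_congr fun o o' => ?_
    show (Sum.inl (A.J o) : A.ι ⊕ B.ι) = Sum.inl (A.J o') ↔ _
    rw [Sum.inl.injEq]
  have e4 : Ent B.w (fun o => (mixF p hp0 hp1 A B).J (Sum.inr o)) = Ent B.w B.J := by
    refine Ent_congr fun o o' => ?_
    show (Sum.inr (B.J o) : A.ι ⊕ B.ι) = Sum.inr (B.J o') ↔ _
    rw [Sum.inr.injEq]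
  rw [e1, e2] at h1
  rw [e3, e4] at h2
  unfold D c
  have h3 : Ent (mixF p hp0 hp1 A B).w (fun o => ((mixF p hp0 hp1 A B).J o,
    (QuotientAddGroup.mk ((mixF p hp0 hp1 A B).Y o) : G ⧸ H))) = _ := h1
  have h4 : Ent (mixF p hp0 hp1 A B).w (mixF p hp0 hp1 A B).J = _ := h2
  rw [h3, h4]
  ring

theorem Sim.mix_add {p : ℝ} (hp0 : 0 ≤ p) (hp1 : p ≤ 1) (A B C : Fam G) :
    Sim ((mixF p hp0 hp1 A B).add C) (mixF p hp0 hp1 (A.add C) (B.add C)) := by
  refine ⟨Equiv.sumProdDistrib _ _ _, ?_, ?_, ?_⟩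
  · rintro ⟨a | b, c⟩
    · show p * (A.w a * C.w c) = p * A.w a * C.w c
      ring
    · show (1 - p) * (B.w b * C.w c) = (1 - p) * B.w b * C.w c
      ring
  · rintro ⟨a | b, c⟩ ⟨a' | b', c'⟩
    · show ((Sum.inl (A.J a) : A.ι ⊕ B.ι), C.J c) = (Sum.inl (A.J a'), C.J c') ↔
        (Sum.inl (A.J a, C.J c) : (A.ι × C.ι) ⊕ (B.ι × C.ι)) = Sum.inl (A.J a', C.J c')
      simp only [Prod.mk.injEq, Sum.inl.injEq]
    · show ((Sum.inl (A.J a) : A.ι ⊕ B.ι), C.J c) = (Sum.inr (B.J b'), C.J c') ↔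
        (Sum.inl (A.J a, C.J c) : (A.ι × C.ι) ⊕ (B.ι × C.ι)) = Sum.inr (B.J b', C.J c')
      constructor
      · intro h; exact absurd (congrArg Prod.fst h) Sum.inl_ne_inr
      · intro h; exact absurd h Sum.inl_ne_inr
    · show ((Sum.inr (B.J b) : A.ι ⊕ B.ι), C.J c) = (Sum.inl (A.J a'), C.J c') ↔
        (Sum.inr (B.J b, C.J c) : (A.ι × C.ι) ⊕ (B.ι × C.ι)) = Sum.inl (A.J a', C.J c')
      constructor
      · intro h; exact absurd (congrArg Prod.fst h) Sum.inr_ne_inl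
      · intro h; exact absurd h Sum.inr_ne_inl
    · show ((Sum.inr (B.J b) : A.ι ⊕ B.ι), C.J c) = (Sum.inr (B.J b'), C.J c') ↔
        (Sum.inr (B.J b, C.J c) : (A.ι × C.ι) ⊕ (B.ι × C.ι)) = Sum.inr (B.J b', C.J c')
      simp only [Prod.mk.injEq, Sum.inr.injEq]
  · rintro ⟨a | b, c⟩ ⟨a' | b', c'⟩ _ <;> rfl

theorem mix_add_D [Finite G] {p : ℝ} (hp0 : 0 ≤ p) (hp1 : p ≤ 1) (A B C : Fam G)
    (H : AddSubgroup G) :
    ((mixF p hp0 hp1 A B).add C).D H = p * (A.add C).D H + (1 - p) * (B.add C).D H := by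
  rw [(Sim.mix_add hp0 hp1 A B C).D_eq, mixF_D]

theorem add_mix_D [Finite G] {p : ℝ} (hp0 : 0 ≤ p) (hp1 : p ≤ 1) (A B C : Fam G)
    (H : AddSubgroup G) :
    (C.add (mixF p hp0 hp1 A B)).D H = p * (C.add A).D H + (1 - p) * (C.add B).D H := by
  rw [D_add_comm, mix_add_D, D_add_comm A C, D_add_comm B C]

/-- the sum of two copies of a mixture -/
theorem mix_mix_D [Finite G] {p : ℝ} (hp0 : 0 ≤ p) (hp1 : p ≤ 1) (A B : Fam G)
    (H : AddSubgroup G) :
    ((mixF p hp0 hp1 A B).add (mixF p hp0 hp1 A B)).D H =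
      p ^ 2 * (A.add A).D H + 2 * p * (1 - p) * (A.add B).D H + (1 - p) ^ 2 * (B.add B).D H := by
  rw [mix_add_D, add_mix_D, add_mix_D, D_add_comm B A]
  ring

/-- the uniform family on `G` -/
noncomputable def unifG (G : Type) [AddCommGroup G] [Finite G] : Fam G :=
  Pool.Agent.Helper25.BP.unif (Set.univ : Set G) ⟨0, trivial⟩

theorem unifG_D [Finite G] (H : AddSubgroup G) : (unifG G).D H = 0 := by
  refine le_antisymm ?_ (D_nonneg _ _)
  have h1 : (unifG G).D ⊥ ≤ Real.log (Nat.card G) - Real.log (Set.univ : Set G).ncard :=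
    Pool.Agent.Helper25.BP.unif_D_bot _ _
  rw [Set.ncard_univ, sub_self] at h1
  exact ((unifG G).D_anti bot_le).trans h1

theorem add_unifG_D [Finite G] (A : Fam G) (H : AddSubgroup G) : (A.add (unifG G)).D H = 0 := by
  refine le_antisymm ?_ (D_nonneg _ _)
  have h := D_add_le' A (unifG G) H
  rwa [unifG_D] at h

theorem unifG_add_D [Finite G] (A : Fam G) (H : AddSubgroup G) : ((unifG G).add A).D H = 0 := by
  rw [D_add_comm, add_unifG_D]

/-- `A` with public probability `p`, otherwise uniform -/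
noncomputable def thin [Finite G] (p : ℝ) (hp0 : 0 ≤ p) (hp1 : p ≤ 1) (A : Fam G) : Fam G :=
  mixF p hp0 hp1 A (unifG G)

theorem thin_D [Finite G] {p : ℝ} (hp0 : 0 ≤ p) (hp1 : p ≤ 1) (A : Fam G) (H : AddSubgroup G) :
    (thin p hp0 hp1 A).D H = p * A.D H := by
  unfold thin
  rw [mixF_D, unifG_D, mul_zero, add_zero]

theorem thin_add_D [Finite G] {p : ℝ} (hp0 : 0 ≤ p) (hp1 : p ≤ 1) (A B : Fam G)
    (H : AddSubgroup G) : ((thin p hp0 hp1 A).add B).D H = p * (A.add B).D H := by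
  unfold thin
  rw [mix_add_D, unifG_add_D, mul_zero, add_zero]

theorem add_thin_D [Finite G] {p : ℝ} (hp0 : 0 ≤ p) (hp1 : p ≤ 1) (A B : Fam G)
    (H : AddSubgroup G) : (B.add (thin p hp0 hp1 A)).D H = p * (B.add A).D H := by
  rw [D_add_comm, thin_add_D, D_add_comm]

theorem thin_thin_D [Finite G] {p : ℝ} (hp0 : 0 ≤ p) (hp1 : p ≤ 1) (A : Fam G)
    (H : AddSubgroup G) :
    ((thin p hp0 hp1 A).add (thin p hp0 hp1 A)).D H = p ^ 2 * (A.add A).D H := by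
  rw [thin_add_D, add_thin_D]
  ring

end Fam

end Pool.Agent.Helper15.BP
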