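import Pool.Agent.Helper25.P2.Mix
import Pool.Agent.Helper92.BQ.Defs

/-!
# Sums of two different families

`pair_claim`: if `D_K(X) ≤ μ log [G:K] + x` and `D_K(W) ≤ w log [G:K]` for all `K`, then
`D(X+W) ≤ K₀ (μ D(W) + x w) + τ log |G|`, provided that `D(2Y) ≤ (K₀/2) u² log |G|` for all
families of slopes at most `u`, `τ ≤ u ≤ 1`.
-/

set_option autoImplicit false

namespace Pool.Agent.Helper15.BP

open Finset

open Pool.Agent.Helper92.BQ (UB)

namespace Fam

variable {G : Type} [AddCommGroup G]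

theorem log_index_nonneg (H : AddSubgroup G) : 0 ≤ Real.log H.index :=
  Real.log_natCast_nonneg _

theorem log_index_pos [Finite G] {H : AddSubgroup G} (h : H ≠ ⊤) : 0 < Real.log H.index := by
  apply Real.log_pos
  have h1 : H.index ≠ 0 := AddSubgroup.index_ne_zero_of_finite
  have h2 : H.index ≠ 1 := fun h3 => h (AddSubgroup.index_eq_one.1 h3)
  have h4 : 1 < H.index := by omega
  exact_mod_cast h4

theorem D_le_log_card [Finite G] (A : Fam G) : A.D ⊥ ≤ Real.log (Nat.card G) := by
  have h := A.D_le_log_index ⊥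
  rwa [AddSubgroup.index_bot] at h

/-- a subgroup of maximal slope -/
theorem exists_max_slope [Finite G] [Nontrivial G] (A : Fam G) :
    ∃ (H : AddSubgroup G) (w : ℝ), H ≠ ⊤ ∧ 0 ≤ w ∧ A.D H = w * Real.log H.index ∧
      ∀ K : AddSubgroup G, A.D K ≤ w * Real.log K.index := by
  classical
  let S := {H : AddSubgroup G // H ≠ ⊤}
  have : Nonempty S := ⟨⟨⊥, bot_ne_top⟩⟩
  obtain ⟨⟨H, hH⟩, hmax⟩ := Finite.exists_max (fun K : S => A.D K.1 / Real.log K.1.index)
  have hpos := log_index_pos hH
  refine ⟨H, A.D H / Real.log H.index, hH, div_nonneg (A.D_nonneg H) hpos.le, ?_, fun K => ?_⟩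
  · rw [div_mul_cancel₀ _ hpos.ne']
  · by_cases hK : K = ⊤
    · rw [hK, A.D_top, AddSubgroup.index_top]
      simp
    · have h1 := hmax ⟨K, hK⟩
      simp only at h1
      have h2 := log_index_pos hK
      rwa [div_le_iff₀ h2] at h1

theorem log_card_eq [Finite G] (H : AddSubgroup G) :
    Real.log (Nat.card G) = Real.log (Nat.card H) + Real.log H.index := by
  have h1 : (Nat.card G : ℝ) = Nat.card H * H.index := by
    exact_mod_cast (AddSubgroup.card_mul_index H).symm
  rw [h1, Real.log_mul]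
  · exact_mod_cast Nat.card_pos.ne'
  · exact_mod_cast AddSubgroup.index_ne_zero_of_finite (H := H)

theorem card_quot [Finite G] (H : AddSubgroup G) : Nat.card (G ⧸ H) = H.index := rfl

theorem card_lt_of_ne_top [Finite G] {H : AddSubgroup G} (h : H ≠ ⊤) :
    Nat.card H < Nat.card G := by
  have h1 := AddSubgroup.card_mul_index H
  have h2 : 0 < Nat.card H := Nat.card_pos
  have h3 : H.index ≠ 0 := AddSubgroup.index_ne_zero_of_finite
  have h4 : H.index ≠ 1 := fun h3 => h (AddSubgroup.index_eq_one.1 h3)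
  have h5 : 2 ≤ H.index := by omega
  rw [← h1]
  calc Nat.card H < Nat.card H * 2 := by omega
    _ ≤ Nat.card H * H.index := Nat.mul_le_mul_left _ h5

theorem index_lt_of_ne_bot [Finite G] {H : AddSubgroup G} (h : H ≠ ⊥) :
    Nat.card (G ⧸ H) < Nat.card G := by
  have h1 := AddSubgroup.card_mul_index H
  have h2 : 0 < Nat.card H := Nat.card_pos
  have h3 : H.index ≠ 0 := AddSubgroup.index_ne_zero_of_finite
  have h4 : Nat.card H ≠ 1 := fun h5 => h (AddSubgroup.card_eq_one.1 h5)
  have h5 : 2 ≤ Nat.card H := by omega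
  have h6 : 0 < H.index := Nat.pos_of_ne_zero h3
  rw [card_quot, ← h1]
  calc H.index < 2 * H.index := by omega
    _ ≤ Nat.card H * H.index := Nat.mul_le_mul_right _ h5

theorem quot_exp2 (h2 : ∀ x : G, x + x = 0) (H : AddSubgroup G) : ∀ x : G ⧸ H, x + x = 0 := by
  intro x
  induction x using QuotientAddGroup.induction_on with
  | H z => rw [← QuotientAddGroup.mk_add, h2, QuotientAddGroup.mk_zero]

theorem sub_exp2 (h2 : ∀ x : G, x + x = 0) (H : AddSubgroup G) : ∀ x : H, x + x = 0 :=
  fun x => Subtype.ext (h2 x)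

/-- **pair lemma** for two families of slopes at most `σ` and `w` -/
theorem pair_semistable [Finite G] (h2 : ∀ x : G, x + x = 0) {τ K₀ : ℝ} (hτ : 0 < τ)
    (hU : ∀ u : ℝ, τ ≤ u → u ≤ 1 → UB u (K₀ / 2 * u ^ 2)) (X W : Fam G) {σ w : ℝ}
    (hX : ∀ K : AddSubgroup G, X.D K ≤ σ * Real.log K.index)
    (hW : ∀ K : AddSubgroup G, W.D K ≤ w * Real.log K.index)
    (hw : τ ≤ w) (hw1 : w ≤ 1) (hσ : w ≤ σ) :
    (X.add W).D ⊥ ≤ K₀ * σ * w * Real.log (Nat.card G) := by
  have hw0 : 0 < w := lt_of_lt_of_le hτ hw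
  have hσ0 : 0 < σ := lt_of_lt_of_le hw0 hσ
  have hp0 : 0 ≤ w / σ := by positivity
  have hp1 : w / σ ≤ 1 := by rwa [div_le_one hσ0]
  set Xp := thin (w / σ) hp0 hp1 X with hXp
  set V := mixF (1 / 2) (by norm_num) (by norm_num) Xp W with hV
  have hVs : ∀ K : AddSubgroup G, V.D K ≤ w * Real.log K.index := by
    intro K
    rw [hV, mixF_D, hXp, thin_D]
    have h1 : w / σ * X.D K ≤ w * Real.log K.index := by
      calc w / σ * X.D K ≤ w / σ * (σ * Real.log K.index) :=
            mul_le_mul_of_nonneg_left (hX K) hp0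
        _ = w * Real.log K.index := by field_simp
    have h3 := hW K
    linarith
  have h4 := hU w hw hw1 G h2 V hVs
  rw [hV, mix_mix_D] at h4
  have h5 := (Xp.add Xp).D_nonneg ⊥
  have h6 := (W.add W).D_nonneg ⊥
  have h9 : (Xp.add W).D ⊥ = w / σ * (X.add W).D ⊥ := thin_add_D hp0 hp1 X W ⊥
  rw [h9] at h4
  have h7 : w / σ * (X.add W).D ⊥ ≤ K₀ * w ^ 2 * Real.log (Nat.card G) := by
    nlinarith
  have h8 : (X.add W).D ⊥ = σ / w * (w / σ * (X.add W).D ⊥) := by field_simp
  rw [h8]
  calc σ / w * (w / σ * (X.add W).D ⊥) ≤ σ / w * (K₀ * w ^ 2 * Real.log (Nat.card G)) :=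
        mul_le_mul_of_nonneg_left h7 (by positivity)
    _ = K₀ * σ * w * Real.log (Nat.card G) := by field_simp

/-- semistable pairs -/
theorem pair_both [Finite G] [Nontrivial G] (h2 : ∀ x : G, x + x = 0) {τ K₀ : ℝ} (hτ : 0 < τ)
    (hK₀ : 0 ≤ K₀)
    (hU : ∀ u : ℝ, τ ≤ u → u ≤ 1 → UB u (K₀ / 2 * u ^ 2)) (X W : Fam G) {σ w : ℝ}
    (hσ0 : 0 ≤ σ) (hw0 : 0 ≤ w)
    (hX : ∀ K : AddSubgroup G, X.D K ≤ σ * Real.log K.index)
    (hXe : X.D ⊥ = σ * Real.log (Nat.card G))
    (hW : ∀ K : AddSubgroup G, W.D K ≤ w * Real.log K.index)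
    (hWe : W.D ⊥ = w * Real.log (Nat.card G)) :
    (X.add W).D ⊥ ≤ K₀ * σ * w * Real.log (Nat.card G) + τ * Real.log (Nat.card G) := by
  have hn : 0 < Real.log (Nat.card G) := by
    apply Real.log_pos
    exact_mod_cast Finite.one_lt_card
  have hσ1 : σ ≤ 1 := by
    have h := X.D_le_log_card
    rw [hXe] at h
    by_contra h'
    rw [not_le] at h'
    nlinarith
  have hw1 : w ≤ 1 := by
    have h := W.D_le_log_card
    rw [hWe] at h
    by_contra h'
    rw [not_le] at h'
    nlinarith
  by_cases h1 : w < τ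
  · have h3 := D_add_le' X W ⊥
    rw [hWe] at h3
    have h4 : w * Real.log (Nat.card G) ≤ τ * Real.log (Nat.card G) :=
      mul_le_mul_of_nonneg_right h1.le hn.le
    have h5 : 0 ≤ K₀ * σ * w * Real.log (Nat.card G) := by positivity
    linarith
  · rw [not_lt] at h1
    by_cases h3 : σ < τ
    · have h4 := D_add_le X W ⊥
      rw [hXe] at h4
      have h5 : σ * Real.log (Nat.card G) ≤ τ * Real.log (Nat.card G) :=
        mul_le_mul_of_nonneg_right h3.le hn.le
      have h6 : 0 ≤ K₀ * σ * w * Real.log (Nat.card G) := by positivity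
      linarith
    · rw [not_lt] at h3
      have h6 : 0 ≤ τ * Real.log (Nat.card G) := by positivity
      rcases le_total w σ with h4 | h4
      · have := pair_semistable h2 hτ hU X W hX hW h1 hw1 h4
        linarith
      · have := pair_semistable h2 hτ hU W X hW hX h3 hσ1 h4
        rw [D_add_comm] at this
        have e : K₀ * w * σ * Real.log (Nat.card G) = K₀ * σ * w * Real.log (Nat.card G) := by
          ring
        linarith

end Fam

open Fam

/-- the statement of the claim for one group -/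
def PairClaim (τ K₀ : ℝ) (G : Type) [AddCommGroup G] [Finite G] : Prop :=
  ∀ (X W : Fam G) (μ x w : ℝ), 0 ≤ μ → 0 ≤ x → 0 ≤ w →
    (∀ K : AddSubgroup G, X.D K ≤ μ * Real.log K.index + x) →
    (∀ K : AddSubgroup G, W.D K ≤ w * Real.log K.index) →
    (X.add W).D ⊥ ≤ K₀ * (μ * W.D ⊥ + x * w) + τ * Real.log (Nat.card G)

/-- the induction step: `H` has maximal slope for `W`, `H ≠ ⊥, ⊤` -/
theorem pair_step {G : Type} [AddCommGroup G] [Finite G] {τ K₀ : ℝ}
    (X W : Fam G) {μ x w : ℝ} (hμ : 0 ≤ μ) (hw : 0 ≤ w)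
    (hX : ∀ K : AddSubgroup G, X.D K ≤ μ * Real.log K.index + x)
    (hW : ∀ K : AddSubgroup G, W.D K ≤ w * Real.log K.index)
    (H : AddSubgroup G) (hH : W.D H = w * Real.log H.index)
    (hsub : PairClaim τ K₀ H) (hquot : PairClaim τ K₀ (G ⧸ H)) :
    (X.add W).D ⊥ ≤ K₀ * (μ * W.D ⊥ + x * w) + τ * Real.log (Nat.card G) := by
  have h1 := add_le_mod_res X W H
  -- the quotient, with the roles exchanged
  have h3 := hquot (W.mod H) (X.mod H) w 0 1 hw le_rfl zero_le_one (fun K => by
    rw [mod_D, ← AddSubgroup.index_comap_of_surjective K (QuotientAddGroup.mk'_surjective H),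
      add_zero]
    exact hW _) (fun K => by
    rw [one_mul]
    exact (X.mod H).D_le_log_index K)
  rw [D_add_comm, mod_D_bot, zero_mul, add_zero, card_quot] at h3
  -- the subgroup
  have hx' : 0 ≤ x + μ * Real.log H.index - X.D H := by linarith [hX H]
  have h4 := hsub (X.resV H) (W.resV H) μ (x + μ * Real.log H.index - X.D H) w hμ hx' hw
    (fun K => by
      rw [resV_D]
      have h5 := hX (K.map H.subtype)
      rw [log_index_map] at h5
      linarith) (fun K => by
      rw [resV_D, hH]
      have h5 := hW (K.map H.subtype)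
      rw [log_index_map] at h5
      linarith)
  rw [resV_D_bot, hH] at h4
  have h6 := log_card_eq H
  rw [h6]
  calc (X.add W).D ⊥ ≤ _ := h1
    _ ≤ (K₀ * (w * X.D H) + τ * Real.log H.index) +
        (K₀ * (μ * (W.D ⊥ - w * Real.log H.index) +
          (x + μ * Real.log H.index - X.D H) * w) + τ * Real.log (Nat.card H)) :=
      add_le_add h3 h4
    _ = _ := by ring

/-- **the claim** -/
theorem pair_claim {τ K₀ : ℝ} (hτ : 0 < τ) (hK₀ : 0 ≤ K₀)
    (hU : ∀ u : ℝ, τ ≤ u → u ≤ 1 → UB u (K₀ / 2 * u ^ 2)) :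
    ∀ (G : Type) [AddCommGroup G] [Finite G], (∀ x : G, x + x = 0) → PairClaim τ K₀ G := by
  -- strong induction on the order
  have main : ∀ N : ℕ, ∀ (G : Type) [AddCommGroup G] [Finite G], (∀ x : G, x + x = 0) →
      Nat.card G ≤ N → PairClaim τ K₀ G := by
    intro N
    induction N with
    | zero =>
      intro G _ _ _ hG
      have := Nat.card_pos (α := G)
      omega
    | succ N ih =>
      intro G _ _ h2 hG X W μ x w hμ hx hw hX hW
      rcases subsingleton_or_nontrivial G with hs | hs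
      · -- trivial group
        have h1 : (X.add W).D ⊥ ≤ 0 := by
          have h := (X.add W).D_le_log_card
          have h3 : Nat.card G = 1 := Nat.card_unique
          rwa [h3, Nat.cast_one, Real.log_one] at h
        have h3 := W.D_nonneg ⊥
        have h4 : 0 ≤ τ * Real.log (Nat.card G) :=
          mul_nonneg hτ.le (Real.log_natCast_nonneg _)
        have h5 : 0 ≤ K₀ * (μ * W.D ⊥ + x * w) := by positivity
        linarith
      · have hn : 0 < Real.log (Nat.card G) := by
          apply Real.log_pos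
          exact_mod_cast Finite.one_lt_card
        obtain ⟨H, w₁, hHt, hw₁, hHe, hWs⟩ := exists_max_slope W
        have hw₁w : w₁ ≤ w := by
          have h3 := hW H
          rw [hHe] at h3
          exact le_of_mul_le_mul_right h3 (log_index_pos hHt)
        -- it suffices to treat w₁
        suffices h : (X.add W).D ⊥ ≤ K₀ * (μ * W.D ⊥ + x * w₁) + τ * Real.log (Nat.card G) by
          have h3 : K₀ * (μ * W.D ⊥ + x * w₁) ≤ K₀ * (μ * W.D ⊥ + x * w) := by
            refine mul_le_mul_of_nonneg_left ?_ hK₀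
            have := mul_le_mul_of_nonneg_left hw₁w hx
            linarith
          linarith
        have hpc : ∀ (H : AddSubgroup G), H ≠ ⊤ → PairClaim τ K₀ H := fun H hH =>
          ih H (sub_exp2 h2 H) (by have := card_lt_of_ne_top hH; omega)
        have hpq : ∀ (H : AddSubgroup G), H ≠ ⊥ → PairClaim τ K₀ (G ⧸ H) := fun H hH =>
          ih (G ⧸ H) (quot_exp2 h2 H) (by have := index_lt_of_ne_bot hH; omega)
        by_cases hHb : H = ⊥
        · -- W is semistable
          rw [hHb, AddSubgroup.index_bot] at hHe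
          suffices h : (X.add W).D ⊥ ≤ K₀ * (w₁ * X.D ⊥) + τ * Real.log (Nat.card G) by
            have h3 := hX ⊥
            rw [AddSubgroup.index_bot] at h3
            have h4 : K₀ * (w₁ * X.D ⊥) ≤ K₀ * (w₁ * (μ * Real.log (Nat.card G) + x)) :=
              mul_le_mul_of_nonneg_left (mul_le_mul_of_nonneg_left h3 hw₁) hK₀
            have h5 : K₀ * (w₁ * (μ * Real.log (Nat.card G) + x)) =
                K₀ * (μ * W.D ⊥ + x * w₁) := by
              rw [hHe]; ring
            linarith
          obtain ⟨H', σ, hHt', hσ, hHe', hXs⟩ := exists_max_slope X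
          by_cases hHb' : H' = ⊥
          · rw [hHb', AddSubgroup.index_bot] at hHe'
            have h3 := pair_both h2 hτ hK₀ hU X W hσ hw₁ hXs hHe' hWs hHe
            rw [hHe']
            have e : K₀ * (w₁ * (σ * Real.log (Nat.card G))) =
              K₀ * σ * w₁ * Real.log (Nat.card G) := by ring
            rw [e]
            exact h3
          · have h3 := pair_step W X (μ := w₁) (x := 0) (w := σ) hw₁ hσ
              (fun K => by rw [add_zero]; exact hWs K) hXs H' hHe' (hpc H' hHt') (hpq H' hHb')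
            rw [D_add_comm, zero_mul, add_zero] at h3
            exact h3
        · exact pair_step X W hμ hw₁ hX hWs H hHe (hpc H hHt) (hpq H hHb)
  intro G _ _ h2
  exact main (Nat.card G) G h2 le_rfl

end Pool.Agent.Helper15.BP
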